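import Mathlib

set_option autoImplicit false

/-!
# Truncated power series over `ZMod m` by lists of natural numbers (project OC of helper465), by helper261
-/

namespace Pool.Agent.H261.OC

open PowerSeries

/-- The first `N` coefficients of `f` are the entries of the list `L` (modulo `m`). -/
def Ag (m N : ℕ) (f : PowerSeries (ZMod m)) (L : List ℕ) : Prop :=
  ∀ k < N, coeff k f = ((L.getD k 0 : ℕ) : ZMod m)

/-- check of a product -/
abbrev ChkMul (m N : ℕ) (L M R : List ℕ) : Prop :=
  ∀ k < N, (∑ i ∈ Finset.range (k + 1), L.getD i 0 * M.getD (k - i) 0) % m = R.getD k 0 % m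

/-- check of a linear combination -/
abbrev ChkLin (m N a b : ℕ) (L M R : List ℕ) : Prop :=
  ∀ k < N, (a * L.getD k 0 + b * M.getD k 0) % m = R.getD k 0 % m

theorem cast_eq {m a b : ℕ} (h : a % m = b % m) : ((a : ℕ) : ZMod m) = ((b : ℕ) : ZMod m) :=
  (ZMod.natCast_eq_natCast_iff' a b m).2 h

theorem Ag.mul {m N : ℕ} {f g : PowerSeries (ZMod m)} {L M R : List ℕ} (hf : Ag m N f L)
    (hg : Ag m N g M) (h : ChkMul m N L M R) : Ag m N (f * g) R := by
  intro k hk
  rw [coeff_mul, Finset.Nat.sum_antidiagonal_eq_sum_range_succ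
    (fun i j => coeff i f * coeff j g) k, ← cast_eq (h k hk)]
  push_cast
  refine Finset.sum_congr rfl (fun i hi => ?_)
  have hi' : i < k + 1 := Finset.mem_range.1 hi
  rw [hf i (by omega), hg (k - i) (by omega)]

theorem Ag.lin {m N a b : ℕ} {f g : PowerSeries (ZMod m)} {L M R : List ℕ} (hf : Ag m N f L)
    (hg : Ag m N g M) (h : ChkLin m N a b L M R) : Ag m N (C (a : ZMod m) * f + C (b : ZMod m) * g) R := by
  intro k hk
  rw [map_add, coeff_C_mul, coeff_C_mul, hf k hk, hg k hk, ← cast_eq (h k hk)]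
  push_cast
  ring

theorem Ag.unique {m N : ℕ} {f g h : PowerSeries (ZMod m)} {F G H : List ℕ} (hg : Ag m N g G)
    (hh : Ag m N h H) (hfg : f * g = h) (hG0 : G.getD 0 0 = 1) (hc : ChkMul m N F G H) :
    Ag m N f F := by
  intro k
  induction k using Nat.strong_induction_on with
  | _ k ih =>
    intro hk
    have e1 := hh k hk
    rw [← hfg, coeff_mul, Finset.Nat.sum_antidiagonal_eq_sum_range_succ
      (fun i j => coeff i f * coeff j g) k, ← cast_eq (hc k hk)] at e1
    push_cast at e1
    rw [Finset.sum_range_succ, Finset.sum_range_succ] at e1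
    have e2 : ∑ i ∈ Finset.range k, coeff i f * coeff (k - i) g =
        ∑ i ∈ Finset.range k, ((F.getD i 0 : ℕ) : ZMod m) * ((G.getD (k - i) 0 : ℕ) : ZMod m) := by
      refine Finset.sum_congr rfl (fun i hi => ?_)
      have hi' : i < k := Finset.mem_range.1 hi
      rw [ih i hi' (by omega), hg (k - i) (by omega)]
    rw [e2] at e1
    have e3 := add_left_cancel e1
    rw [Nat.sub_self, hg 0 (by omega), hG0, Nat.cast_one, mul_one, mul_one] at e3
    exact e3

theorem Ag.mono {m N N' : ℕ} {f : PowerSeries (ZMod m)} {L : List ℕ} (hf : Ag m N f L)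
    (h : N' ≤ N) : Ag m N' f L := fun k hk => hf k (by omega)

end Pool.Agent.H261.OC
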