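import Pool.Graph.R_pool_sql_team_seeded_3997aac3.Q279.SC.J.COUNT
import Pool.Agent.H261.OC.Frame

set_option autoImplicit false

/-!
# The series of `Small p` modulo `m` by lists; the number of points (project OC of helper465), by helper261
-/

namespace Pool.Agent.H261.OC

open PowerSeries Pool.Agent.Q279.SC

/-- reduction modulo `m` -/
noncomputable abbrev mp (m : ℕ) (f : PowerSeries ℤ) : PowerSeries (ZMod m) :=
  PowerSeries.map (Int.castRingHom (ZMod m)) f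

/-- The lists and the checks. -/
structure Data (m N c : ℕ) where
  A : List ℕ
  B : List ℕ
  Q : List ℕ
  A2 : List ℕ
  A3 : List ℕ
  B2 : List ℕ
  E4 : List ℕ
  E42 : List ℕ
  E43 : List ℕ
  D : List ℕ
  d : List ℕ
  H : List ℕ
  hc : (c + 147) % m = 0 % m
  hA : ∀ k < N, (∑ d ∈ k.divisors, d ^ 3) % m = A.getD k 0 % m
  hB : ∀ k < N, (∑ d ∈ k.divisors, d ^ 5) % m = B.getD k 0 % m
  hQ : ∀ k < N, (∑ d ∈ k.divisors, (5 * d ^ 3 + 7 * d ^ 5) / 12) % m = Q.getD k 0 % m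
  hA2 : ChkMul m N A A A2
  hA3 : ChkMul m N A2 A A3
  hB2 : ChkMul m N B B B2
  hE4 : ∀ k < N, ((if k = 0 then 1 else 0) + 240 * A.getD k 0) % m = E4.getD k 0 % m
  hE42 : ChkMul m N E4 E4 E42
  hE43 : ChkMul m N E42 E4 E43
  hD : ∀ k < N, (Q.getD k 0 + 100 * A2.getD k 0 + 8000 * A3.getD k 0 + c * B2.getD k 0) % m =
    D.getD k 0 % m
  hd : ∀ k < N, k + 1 < N → d.getD k 0 = D.getD (k + 1) 0
  hH : ChkMul m (N - 1) E4 d H

theorem ag_A {m N : ℕ} {L : List ℕ} (h : ∀ k < N, (∑ d ∈ k.divisors, d ^ 3) % m = L.getD k 0 % m) :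
    Ag m N (mp m zA) L := by
  intro k hk
  rw [PowerSeries.coeff_map, zA, coeff_mk, ← cast_eq (h k hk)]
  simp

theorem ag_B {m N : ℕ} {L : List ℕ} (h : ∀ k < N, (∑ d ∈ k.divisors, d ^ 5) % m = L.getD k 0 % m) :
    Ag m N (mp m zB) L := by
  intro k hk
  rw [PowerSeries.coeff_map, zB, coeff_mk, ← cast_eq (h k hk)]
  simp

theorem ag_Q {m N : ℕ} {L : List ℕ}
    (h : ∀ k < N, (∑ d ∈ k.divisors, (5 * d ^ 3 + 7 * d ^ 5) / 12) % m = L.getD k 0 % m) :
    Ag m N (mp m zQ) L := by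
  intro k hk
  rw [PowerSeries.coeff_map, zQ, coeff_mk, ← cast_eq (h k hk)]
  have e : (∑ d ∈ k.divisors, ((5 * (d : ℤ) ^ 3 + 7 * (d : ℤ) ^ 5) / 12)) =
      ((∑ d ∈ k.divisors, (5 * d ^ 3 + 7 * d ^ 5) / 12 : ℕ) : ℤ) := by
    push_cast
    rfl
  rw [e, eq_intCast, Int.cast_natCast]

theorem q4_eq (m : ℕ) : q4 (ZMod m) = 1 + 240 * mp m zA := by
  unfold q4 z4
  rw [map_add, map_mul, map_one, map_ofNat]

theorem qD_eq (m : ℕ) : qD (ZMod m) = mp m zQ + 100 * (mp m zA * mp m zA) +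
    8000 * (mp m zA * mp m zA * mp m zA) - 147 * (mp m zB * mp m zB) := by
  unfold qD zD
  simp only [map_add, map_sub, map_mul, map_pow, map_ofNat]
  ring

theorem Data.ag4 {m N c : ℕ} (S : Data m N c) : Ag m N (q4 (ZMod m)) S.E4 := by
  intro k hk
  rw [q4_eq, map_add, ← cast_eq (S.hE4 k hk)]
  have e1 : (240 : PowerSeries (ZMod m)) = C (240 : ZMod m) := (map_ofNat C 240).symm
  rw [e1, coeff_C_mul, ag_A S.hA k hk, coeff_one]
  push_cast
  rfl

theorem Data.agD {m N c : ℕ} (S : Data m N c) : Ag m N (qD (ZMod m)) S.D := by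
  intro k hk
  have h2 := (ag_A S.hA).mul (ag_A S.hA) S.hA2
  have h3 := h2.mul (ag_A S.hA) S.hA3
  have h4 := (ag_B S.hB).mul (ag_B S.hB) S.hB2
  have e1 : (100 : PowerSeries (ZMod m)) = C (100 : ZMod m) := (map_ofNat C 100).symm
  have e2 : (8000 : PowerSeries (ZMod m)) = C (8000 : ZMod m) := (map_ofNat C 8000).symm
  have e3 : (147 : PowerSeries (ZMod m)) = C (147 : ZMod m) := (map_ofNat C 147).symm
  have e4 : ((c : ℕ) : ZMod m) = -147 := by
    have := cast_eq (m := m) S.hc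
    push_cast at this
    linear_combination this
  rw [qD_eq, e1, e2, e3, map_sub, map_add, map_add, coeff_C_mul, coeff_C_mul, coeff_C_mul,
    ag_Q S.hQ k hk, h2 k hk, h3 k hk, h4 k hk, ← cast_eq (S.hD k hk)]
  push_cast
  rw [e4]
  ring

theorem Data.agd {m N c : ℕ} (S : Data m N c) : Ag m (N - 1) (qd (ZMod m)) S.d := by
  intro k hk
  have h := S.agD (k + 1) (by omega)
  rw [S.hd k (by omega) (by omega), ← h]
  unfold qd qD zd
  rw [PowerSeries.coeff_map, PowerSeries.coeff_map, coeff_mk]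

theorem map_q4' (m : ℕ) : mp m (q4 ℤ) = q4 (ZMod m) := by
  ext k; simp [q4]
theorem map_qD' (m : ℕ) : mp m (qD ℤ) = qD (ZMod m) := by
  ext k; simp [qD]
theorem map_qd' (m : ℕ) : mp m (qd ℤ) = qd (ZMod m) := by
  ext k; simp [qd]

/-- The coefficients of `Φ`. -/
theorem Data.phi {m N c : ℕ} (S : Data m N c) (n : ℕ) (hn : n ≤ m) (G F : List ℕ)
    (hG0 : G.getD 0 0 = 1) (hG : ChkLin m (N - 1) 1 (m - n) S.E43 S.D G)
    (hF : ChkMul m (N - 1) F G S.H) (Φ : PowerSeries ℤ)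
    (h : Φ * (q4 ℤ ^ 3 - PowerSeries.C (n : ℤ) * qD ℤ) = q4 ℤ * qd ℤ) : Ag m (N - 1) (mp m Φ) F := by
  have h1 : mp m Φ * (mp m (q4 ℤ) ^ 3 - mp m (PowerSeries.C (n : ℤ)) * mp m (qD ℤ)) =
      mp m (q4 ℤ) * mp m (qd ℤ) := by
    have h0 := congrArg (mp m) h
    simpa only [map_mul, map_sub, map_pow] using h0
  have hC : mp m (PowerSeries.C (n : ℤ)) = C ((Int.castRingHom (ZMod m)) (n : ℤ)) :=
    PowerSeries.map_C _ _
  rw [map_q4', map_qD', map_qd', hC] at h1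
  have hE43 := (S.ag4.mul S.ag4 S.hE42).mul S.ag4 S.hE43
  have h2 := (hE43.mono (Nat.sub_le N 1)).lin (S.agD.mono (Nat.sub_le N 1)) hG
  have h3 := (S.ag4.mono (Nat.sub_le N 1)).mul S.agd S.hH
  refine Ag.unique h2 h3 ?_ hG0 hF
  rw [← h1]
  congr 1
  have e1 : (((m - n : ℕ)) : ZMod m) = -(n : ZMod m) := by
    rw [Nat.cast_sub hn]; simp
  rw [e1, Nat.cast_one, map_one, map_neg]
  simp only [eq_intCast, Int.cast_natCast]
  ring

end Pool.Agent.H261.OC
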