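import Pool.Agent.H261.OC.Frame2

set_option autoImplicit false

/-!
# The number of points modulo `p` by the short Weierstrass form (project OC of helper465), by helper261
-/

namespace Pool.Agent.H261.OC

open Pool.Agent.Q279.SC

/-- the number of affine points of `y^2 = x^3 - 27 a x - 54 b` -/
def cnt (p : ℕ) [NeZero p] (a b : ZMod p) : ℕ :=
  (Finset.univ.filter (fun z : ZMod p × ZMod p =>
    z.2 ^ 2 = z.1 ^ 3 - 27 * a * z.1 - 54 * b)).card

theorem ap_eq (p : ℕ) [Fact p.Prime] (hp : 5 ≤ p) (W : WeierstrassCurve ℤ) (hD : ¬ (p : ℤ) ∣ W.Δ) :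
    ap W p = p - cnt p ((W.c₄ : ℤ) : ZMod p) ((W.c₆ : ℤ) : ZMod p) := by
  have hpp : p.Prime := Fact.out
  obtain ⟨V, hV⟩ : ∃ V, V = W.map (Int.castRingHom (ZMod p)) := ⟨_, rfl⟩
  have hVD : V.Δ ≠ 0 := by
    rw [hV, WeierstrassCurve.map_Δ]
    intro h0
    exact hD ((ZMod.intCast_zmod_eq_zero_iff_dvd _ _).1 h0)
  have hc4 : ((W.c₄ : ℤ) : ZMod p) = V.c₄ := by
    rw [hV, WeierstrassCurve.map_c₄]; rfl
  have hc6 : ((W.c₆ : ℤ) : ZMod p) = V.c₆ := by
    rw [hV, WeierstrassCurve.map_c₆]; rfl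
  unfold ap
  rw [← hV, JCOUNT.card_pt V hVD, hc4, hc6]
  have h2 : (2 : ZMod p) ≠ 0 := by
    intro h
    have h1 : ((2 : ℕ) : ZMod p) = 0 := by exact_mod_cast h
    rw [ZMod.natCast_eq_zero_iff] at h1
    have := Nat.le_of_dvd (by norm_num) h1; omega
  have h3 : (3 : ZMod p) ≠ 0 := by
    intro h
    have h1 : ((3 : ℕ) : ZMod p) = 0 := by exact_mod_cast h
    rw [ZMod.natCast_eq_zero_iff] at h1
    have := Nat.le_of_dvd (by norm_num) h1; omega
  have h36 : (36 : ZMod p) ≠ 0 := by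
    have : (36 : ZMod p) = 2 * (2 * (3 * 3)) := by norm_num
    rw [this]; exact mul_ne_zero h2 (mul_ne_zero h2 (mul_ne_zero h3 h3))
  have h108 : (108 : ZMod p) ≠ 0 := by
    have : (108 : ZMod p) = 36 * 3 := by norm_num
    rw [this]; exact mul_ne_zero h36 h3
  have h4 : (4 : ZMod p) ≠ 0 := by
    have : (4 : ZMod p) = 2 * 2 := by norm_num
    rw [this]; exact mul_ne_zero h2 h2
  have hcard : Nat.card {xy : ZMod p × ZMod p // xy.2 ^ 2 + V.a₁ * xy.1 * xy.2 +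
      V.a₃ * xy.2 = xy.1 ^ 3 + V.a₂ * xy.1 ^ 2 + V.a₄ * xy.1 + V.a₆} = cnt p V.c₄ V.c₆ := by
    have e : Nat.card {xy : ZMod p × ZMod p // xy.2 ^ 2 + V.a₁ * xy.1 * xy.2 +
        V.a₃ * xy.2 = xy.1 ^ 3 + V.a₂ * xy.1 ^ 2 + V.a₄ * xy.1 + V.a₆} =
        Nat.card {z : ZMod p × ZMod p // z.2 ^ 2 = z.1 ^ 3 - 27 * V.c₄ * z.1 - 54 * V.c₆} := by
      have key : ∀ x y : ZMod p, (108 * (2 * y + V.a₁ * x + V.a₃)) ^ 2 -
          ((36 * x + 3 * V.b₂) ^ 3 - 27 * V.c₄ * (36 * x + 3 * V.b₂) - 54 * V.c₆) =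
          108 ^ 2 * (4 * (y ^ 2 + V.a₁ * x * y + V.a₃ * y -
            (x ^ 3 + V.a₂ * x ^ 2 + V.a₄ * x + V.a₆))) := by
        intro x y
        unfold WeierstrassCurve.c₄ WeierstrassCurve.c₆ WeierstrassCurve.b₂ WeierstrassCurve.b₄
          WeierstrassCurve.b₆
        ring
      have hmap : ∀ xy : ZMod p × ZMod p, xy.2 ^ 2 + V.a₁ * xy.1 * xy.2 +
          V.a₃ * xy.2 = xy.1 ^ 3 + V.a₂ * xy.1 ^ 2 + V.a₄ * xy.1 + V.a₆ ↔
          (108 * (2 * xy.2 + V.a₁ * xy.1 + V.a₃)) ^ 2 = (36 * xy.1 + 3 * V.b₂) ^ 3 -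
            27 * V.c₄ * (36 * xy.1 + 3 * V.b₂) - 54 * V.c₆ := by
        intro xy
        have hk := key xy.1 xy.2
        constructor
        · intro h
          rw [h, sub_self, mul_zero, mul_zero] at hk
          exact sub_eq_zero.1 hk
        · intro h
          rw [h, sub_self] at hk
          have h5 := mul_eq_zero.1 hk.symm
          rcases h5 with h5 | h5
          · exact absurd h5 (pow_ne_zero _ h108)
          rcases mul_eq_zero.1 h5 with h6 | h6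
          · exact absurd h6 h4
          · exact sub_eq_zero.1 h6
      refine Nat.card_eq_of_bijective (fun xy : {xy : ZMod p × ZMod p // xy.2 ^ 2 + V.a₁ * xy.1 * xy.2 +
        V.a₃ * xy.2 = xy.1 ^ 3 + V.a₂ * xy.1 ^ 2 + V.a₄ * xy.1 + V.a₆} =>
        (⟨(36 * xy.1.1 + 3 * V.b₂, 108 * (2 * xy.1.2 + V.a₁ * xy.1.1 + V.a₃)), (hmap xy.1).1 xy.2⟩ :
          {z : ZMod p × ZMod p // z.2 ^ 2 = z.1 ^ 3 - 27 * V.c₄ * z.1 - 54 * V.c₆})) ⟨?_, ?_⟩
      · rintro ⟨⟨x, y⟩, h⟩ ⟨⟨x', y'⟩, h'⟩ hxy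
        simp only [Subtype.mk.injEq, Prod.mk.injEq] at hxy
        obtain ⟨e1, e2⟩ := hxy
        have hx : x = x' := mul_left_cancel₀ h36 (add_right_cancel e1)
        subst hx
        have e3 := mul_left_cancel₀ h108 e2
        have hy : y = y' := by
          have : 2 * y = 2 * y' := by linear_combination e3
          exact mul_left_cancel₀ h2 this
        subst hy
        rfl
      · rintro ⟨⟨x', y'⟩, h⟩
        have e1 : 36 * ((x' - 3 * V.b₂) / 36) + 3 * V.b₂ = x' := by field_simp; ring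
        have e2 : ∀ u : ZMod p, 108 * (2 * ((y' / 108 - V.a₁ * u - V.a₃) / 2) + V.a₁ * u + V.a₃) = y' := by
          intro u; field_simp; ring
        refine ⟨⟨((x' - 3 * V.b₂) / 36,
          (y' / 108 - V.a₁ * ((x' - 3 * V.b₂) / 36) - V.a₃) / 2), ?_⟩, ?_⟩
        · rw [hmap]
          simp only
          rw [e1, e2]
          exact h
        · simp only [Subtype.mk.injEq, Prod.mk.injEq]
          exact ⟨e1, e2 _⟩
    rw [e]
    unfold cnt
    rw [Nat.card_eq_fintype_card, Fintype.card_subtype]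
  rw [hcard]
  push_cast
  ring

end Pool.Agent.H261.OC
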